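import Pool.Agent.Helper578.JD.Final

/-!
For every computable ordinal there is a torsion-free abelian group whose proper jump degree at this
ordinal is the corresponding jump of the degree zero.
-/

namespace Pool.Agent.Results.MP_5290c5_lc.Full

open Pool.Agent.Helper578.JD Pool.Agent.Helper578.JD.Defs

/-- Check of the definition of the jump: it is many-one complete for the sets which are computably
enumerable relative to `A`, that is, the domains of the partial functions recursive in `A`. -/
theorem jump_is_complete {A S : Set ℕ} :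
    (∃ f : ℕ →. ℕ, RecursiveIn {chi A} f ∧ ∀ n, (f n).Dom ↔ n ∈ S) ↔
      ∃ g : ℕ → ℕ, Computable g ∧ ∀ n, n ∈ S ↔ g n ∈ jump A :=
  jump_complete

/-- Check of the definition of the hierarchy: its value at the least place. -/
theorem hierarchy_at_least {R : ℕ → ℕ → Prop} (hR : WellFounded R) (X : Set ℕ) {b : ℕ}
    (hb : ∀ c, ¬ R c b) : deg (H hR X b) = deg X :=
  deg_eq (H_least hR X hb).1 (H_least hR X hb).2

/-- Check of the definition of the hierarchy: its value at the successor `b` of `c`. -/
theorem hierarchy_at_successor {R : ℕ → ℕ → Prop} (hR : IsWellOrder ℕ R)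
    (hc : ComputablePred fun p : ℕ × ℕ => R p.1 p.2) (X : Set ℕ) {b c : ℕ} (h : R c b)
    (h' : ∀ d, R d b → d = c ∨ R d c) : deg (H hR.wf X b) = deg (jump (H hR.wf X c)) :=
  deg_eq (H_succ hR.wf hc (fun _ _ _ => trans_of R) X h h').1
    (H_succ hR.wf hc (fun _ _ _ => trans_of R) X h h').2

/-- Check of the definition of the hierarchy: its value at the limit place `b`. -/
theorem hierarchy_at_limit {R : ℕ → ℕ → Prop} (hR : WellFounded R)
    (hc : ComputablePred fun p : ℕ × ℕ => R p.1 p.2) (X : Set ℕ) {b c : ℕ} (h : R c b)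
    (h' : ∀ d, R d b → ∃ e, R d e ∧ R e b) :
    deg (H hR X b) = deg {n | R n.unpair.1 b ∧ n.unpair.2 ∈ H hR X n.unpair.1} :=
  deg_eq (H_limit hR hc X h h').1 (H_limit hR hc X h h').2

/-- For every computable well-ordering `R` of the natural numbers and every `a`, there is a
countable torsion-free abelian group whose proper jump degree at `a` is the jump of the degree zero
at `a`. -/
theorem result (R : ℕ → ℕ → Prop) (hR : IsWellOrder ℕ R)
    (hc : ComputablePred fun p : ℕ × ℕ => R p.1 p.2) (a : ℕ) :
    ∃ (G : Type) (_ : AddCommGroup G), Countable G ∧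
      (∀ n : ℕ, 1 ≤ n → ∀ g : G, g ≠ 0 → n • g ≠ 0) ∧
      IsProperJumpDegree hR.wf a G (deg (H hR.wf ∅ a)) := by
  obtain ⟨S, h⟩ := main_degrees hR.wf hc (fun _ _ _ => trans_of R) a
  refine ⟨DirectSum ℕ fun i => S i, inferInstance, ?_, ?_, h⟩
  · obtain ⟨⟨D, ⟨op, e, -, -⟩, -⟩, -⟩ := h.1
    exact e.injective.countable
  · intro n hn g hg h0
    apply hg
    apply DirectSum.ext
    intro i
    have h1 : ((n • g) i : S i) = (0 : DirectSum ℕ fun i => S i) i := by rw [h0]
    have h2 : n • (g i) = 0 := h1
    have h3 : (n : ℚ) * ((g i : S i) : ℚ) = 0 := by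
      have := congrArg (fun x : S i => (x : ℚ)) h2
      simpa using this
    have h4 : (n : ℚ) ≠ 0 := by positivity
    exact Subtype.ext ((mul_eq_zero.1 h3).resolve_left h4)

end Pool.Agent.Results.MP_5290c5_lc.Full
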